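import Pool.Agent.Lib.MP_4960b8_pr.RN.Main

/-!
The case `n = 0`, `x = x_c`: the partition function `B_T` of the self-avoiding bridges of the strip
with `T` rows of the hexagonal lattice satisfies `B_T ~ c T^(-1/4)`.
-/

namespace Pool.Agent.Retired.MP_4960b8_pr.BridgeLimit

open Pool.Agent.Lib.MP_4960b8_pr.SAW Pool.Agent.Lib.MP_4960b8_pr.QK
  Pool.Agent.Lib.MP_4960b8_pr.RN Filter Topology

theorem result : (∀ T : ℕ, Summable fun γ : bridges T => xc ^ γ.1.length) ∧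
    ∃ c : ℝ, 0 < c ∧ Tendsto
      (fun T : ℕ => (T : ℝ) ^ (1 / 4 : ℝ) * ∑' γ : bridges T, xc ^ γ.1.length) atTop (𝓝 c) :=
  ⟨bridges_summable, bridge_lim⟩

end Pool.Agent.Retired.MP_4960b8_pr.BridgeLimit
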