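import Pool.Agent.Lib.MP_4960b8_pr.RN.Main

/-!
The case `n = 0`, `x = x_c`: scaling limit of the set of cut levels of the critical self-avoiding
bridge of a strip of the hexagonal lattice.
-/

namespace Pool.Agent.Retired.MP_4960b8_pr.CutLevels

open Pool.Agent.Lib.MP_4960b8_pr.SAW Pool.Agent.Lib.MP_4960b8_pr.QK
  Pool.Agent.Lib.MP_4960b8_pr.RN

theorem result (l : List (ℝ × ℝ)) (hi : ℝ) (hl : Ord 0 l hi) (ε : ℝ) (hε : 0 < ε) :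
    ∃ T₀ : ℕ, ∀ T : ℕ, T₀ ≤ T → ∀ N : ℕ, hi * T ≤ N →
      Summable (fun γ : bridges N => xc ^ γ.1.length) ∧ 0 < tot (bridges N) ∧
      |tot {γ | γ ∈ bridges N ∧
          ∀ I ∈ l, ∃ t : ℤ, I.1 * T ≤ t ∧ (t : ℝ) ≤ I.2 * T ∧ IsCut γ t} / tot (bridges N) -
        hit ((T : ℝ) / N) l 0| ≤ ε := by
  obtain ⟨T₀, h⟩ := cut_lim hl hε
  exact ⟨T₀, fun T hT N hN => ⟨bridges_summable N, h T hT N hN⟩⟩

end Pool.Agent.Retired.MP_4960b8_pr.CutLevels
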