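import Pool.Agent.Lib.MP_4960b8_pr.SAW.Final

/-!
The case `n = 0`: along a sequence of scales the critical self-avoiding walk between two points of
a flat side at distance `β` has height and diameter of order `β`, uniformly in the domain.
-/

namespace Pool.Agent.Retired.MP_4960b8_pr.SawScale

open Pool.Agent.Lib.MP_4960b8_pr.SAW

theorem result : ∃ κ : ℝ, 0 < κ ∧ ∃ C : ℕ, ∀ m : ℕ, ∃ β : ℕ, m ≤ β ∧ ∀ Ω : Set V, Ω.Finite →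
    tri (C * β) ⊆ Ω → (∀ v ∈ Ω, 0 ≤ v.k) →
    0 < mass (saws Ω ⟨1, 1, 0⟩ ⟨1 - β, 1 + β, 0⟩) ∧
    (∀ h : ℕ, 1 ≤ h → prob Ω ⟨1, 1, 0⟩ ⟨1 - β, 1 + β, 0⟩ {γ | ∀ v ∈ γ, v.k < h} ≤
      C * ((h : ℝ) / β) ^ κ) ∧
    ∀ R : ℕ, 1 ≤ R → prob Ω ⟨1, 1, 0⟩ ⟨1 - β, 1 + β, 0⟩ {γ | ∃ v ∈ γ, v ∉ tri R} ≤
      C * ((β : ℝ) / R) ^ κ :=
  scale_main

end Pool.Agent.Retired.MP_4960b8_pr.SawScale
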